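import Mathlib

/-!
# MP_54d171_ag: log-concavity for one lambda-class

For one index `i` the polynomials of the problem are `P_(i)(g) = e_i(1, 3, ..., 2g - 1)` and
`P~_(i)(g) = e_i(2, 4, ..., 2g)` (listed in the problem file). We prove that their coefficient sequences in
the binomial basis are log-concave, for every `i`.
-/

set_option autoImplicit false

namespace Pool.Agent.Results.MP_54d171_ag.OneIndex

open Finset

/-- `e_i(1, 3, ..., 2g - 1)` -/
def oddE (i g : ℕ) : ℤ := ((Multiset.range g).map fun j : ℕ => (2 * (j : ℤ) + 1)).esymm i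

/-- `e_i(2, 4, ..., 2g)` -/
def evenE (i g : ℕ) : ℤ := ((Multiset.range g).map fun j : ℕ => (2 * (j : ℤ) + 2)).esymm i

/-- `c` is the coefficient sequence of `F` in the binomial basis: `F(g) = ∑_k c_k binom(g, k)` for all `g`. -/
def IsBinomialCoeffs (F : ℕ → ℤ) (c : ℕ → ℤ) : Prop :=
  ∀ g : ℕ, F g = ∑ k ∈ range (g + 1), c k * (g.choose k : ℤ)

/-! ### The general family `e_i(s, s + 2, ..., s + 2 (g - 1))` -/

/-- elementary symmetric functions of `s, s + 2, ..., s + 2 (g - 1)` -/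
def EE (s : ℤ) (i g : ℕ) : ℤ := ((Multiset.range g).map fun j : ℕ => (2 * (j : ℤ) + s)).esymm i

/-- the coefficients, by recursion -/
def cc (s : ℤ) : ℕ → ℕ → ℤ
  | 0, k => if k = 0 then 1 else 0
  | _ + 1, 0 => 0
  | i + 1, k + 1 => (2 * (k : ℤ) + s) * cc s i k + 2 * (k : ℤ) * cc s i (k - 1)

theorem esymm_cons {a : ℤ} {t : Multiset ℤ} (n : ℕ) :
    (a ::ₘ t).esymm (n + 1) = t.esymm (n + 1) + a * t.esymm n := by
  simp [Multiset.esymm, Multiset.powersetCard_cons, Multiset.map_map, Multiset.sum_map_mul_left]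

theorem EE_zero (s : ℤ) (g : ℕ) : EE s 0 g = 1 := by
  simp [EE, Multiset.esymm]

theorem EE_succ_zero (s : ℤ) (i : ℕ) : EE s (i + 1) 0 = 0 := by
  simp [EE, Multiset.esymm]

theorem EE_succ (s : ℤ) (i g : ℕ) :
    EE s (i + 1) (g + 1) = EE s (i + 1) g + (2 * (g : ℤ) + s) * EE s i g := by
  unfold EE
  rw [Multiset.range_succ, Multiset.map_cons, esymm_cons]

theorem choose_id (g k : ℕ) :
    ((g : ℤ) - k) * (g.choose k : ℤ) = ((k : ℤ) + 1) * (g.choose (k + 1) : ℤ) := by
  rcases Nat.lt_or_ge g k with h | h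
  · rw [Nat.choose_eq_zero_of_lt h, Nat.choose_eq_zero_of_lt (by omega)]
    simp
  · have e := Nat.choose_succ_right_eq g k
    have e' : ((g.choose (k + 1) * (k + 1) : ℕ) : ℤ) = ((g.choose k * (g - k) : ℕ) : ℤ) := by rw [e]
    rw [Nat.cast_mul, Nat.cast_mul, Nat.cast_sub h] at e'
    push_cast at e'
    linarith

theorem main_identity (s : ℤ) : ∀ i g : ℕ,
    EE s i g = ∑ k ∈ range (g + 1), cc s i k * (g.choose k : ℤ)
  | 0, g => by
    rw [EE_zero, Finset.sum_eq_single_of_mem 0 (by simp)]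
    · simp [cc]
    · intro b _ hb
      simp [cc, hb]
  | i + 1, 0 => by
    rw [EE_succ_zero]
    simp [cc]
  | i + 1, g + 1 => by
    have ih1 := main_identity s (i + 1) g
    have ih2 := main_identity s i g
    rw [EE_succ, ih1, ih2]
    have key : ∑ k ∈ range (g + 1), cc s (i + 1) (k + 1) * (g.choose k : ℤ) =
        (2 * (g : ℤ) + s) * ∑ k ∈ range (g + 1), cc s i k * (g.choose k : ℤ) := by
      have h2 : ∑ k ∈ range (g + 1), 2 * ((k : ℤ) + 1) * cc s i k * (g.choose (k + 1) : ℤ) =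
          ∑ k ∈ range (g + 1), 2 * (k : ℤ) * cc s i (k - 1) * (g.choose k : ℤ) := by
        have e1 := Finset.sum_range_succ' (fun k : ℕ =>
          2 * (k : ℤ) * cc s i (k - 1) * (g.choose k : ℤ)) (g + 1)
        have e2 := Finset.sum_range_succ (fun k : ℕ =>
          2 * (k : ℤ) * cc s i (k - 1) * (g.choose k : ℤ)) (g + 1)
        rw [e2] at e1
        simp only [Nat.choose_succ_self, Nat.cast_zero, mul_zero, add_zero, zero_mul] at e1
        rw [e1]
        refine Finset.sum_congr rfl fun k _ => ?_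
        push_cast
        simp
      rw [Finset.mul_sum]
      calc ∑ k ∈ range (g + 1), cc s (i + 1) (k + 1) * (g.choose k : ℤ)
          = ∑ k ∈ range (g + 1), ((2 * (k : ℤ) + s) * cc s i k * (g.choose k : ℤ)) +
            ∑ k ∈ range (g + 1), 2 * (k : ℤ) * cc s i (k - 1) * (g.choose k : ℤ) := by
            rw [← Finset.sum_add_distrib]
            refine Finset.sum_congr rfl fun k _ => ?_
            simp only [cc]
            ring
        _ = ∑ k ∈ range (g + 1), ((2 * (k : ℤ) + s) * cc s i k * (g.choose k : ℤ)) +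
            ∑ k ∈ range (g + 1), 2 * ((k : ℤ) + 1) * cc s i k * (g.choose (k + 1) : ℤ) := by
            rw [h2]
        _ = ∑ k ∈ range (g + 1), (2 * (g : ℤ) + s) * (cc s i k * (g.choose k : ℤ)) := by
            rw [← Finset.sum_add_distrib]
            refine Finset.sum_congr rfl fun k _ => ?_
            have := choose_id g k
            linear_combination (-2 * cc s i k) * this
    rw [← key]
    have e3 := Finset.sum_range_succ' (fun k : ℕ => cc s (i + 1) k * ((g + 1).choose k : ℤ)) (g + 1)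
    rw [e3]
    have e4 := Finset.sum_range_succ' (fun k : ℕ => cc s (i + 1) k * (g.choose k : ℤ)) (g + 1)
    have e5 := Finset.sum_range_succ (fun k : ℕ => cc s (i + 1) k * (g.choose k : ℤ)) (g + 1)
    rw [e5] at e4
    simp only [Nat.choose_succ_self, Nat.cast_zero, mul_zero, add_zero] at e4
    have e6 : cc s (i + 1) 0 = 0 := by simp [cc]
    rw [e6, zero_mul, add_zero] at e4
    rw [e4, e6, zero_mul, add_zero, ← Finset.sum_add_distrib]
    refine Finset.sum_congr rfl fun k _ => ?_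
    rw [Nat.choose_succ_succ]
    push_cast
    ring

/-! ### Log-concavity -/

theorem alg {m n s A0 A1 A2 B0 B1 B2 : ℤ} (hm : 0 ≤ m) (hmn : m ≤ n) (hs : 0 ≤ s)
    (hA1 : 0 ≤ A1) (hA2 : 0 ≤ A2) (hB0 : 0 ≤ B0) (hB1 : 0 ≤ B1)
    (h1 : A1 * B2 ≤ A2 * B1) (h2 : A0 * B1 ≤ A1 * B0) (h3 : A0 * B2 ≤ A1 * B1)
    (h4 : A1 * B1 ≤ A2 * B0) :
    ((2 * m + s) * A1 + 2 * m * A0) * ((2 * (n + 2) + s) * B2 + 2 * (n + 2) * B1) ≤
      ((2 * (m + 1) + s) * A2 + 2 * (m + 1) * A1) * ((2 * (n + 1) + s) * B1 + 2 * (n + 1) * B0) := by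
  have hn : 0 ≤ n := hm.trans hmn
  have g1 := mul_le_mul_of_nonneg_left h1 (show 0 ≤ (2 * m + s) * (2 * (n + 2) + s) by positivity)
  have g2 := mul_le_mul_of_nonneg_left h2 (show 0 ≤ (2 * m) * (2 * (n + 2)) by positivity)
  have g3 := mul_le_mul_of_nonneg_left h3 (show 0 ≤ (2 * m) * (2 * (n + 2) + s) by positivity)
  have g4 := mul_le_mul_of_nonneg_left h4 (show 0 ≤ (2 * (m + 1) + s) * (2 * (n + 1)) by positivity)
  have hd : 0 ≤ n - m + 1 := by linarith
  have g5 : 0 ≤ (n - m + 1) * (A2 * B1) := by positivity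
  have g6 : 0 ≤ (n - m + 1) * (A1 * B0) := by positivity
  have g7 : 0 ≤ (n - m + 1) * (A1 * B1) := by positivity
  nlinarith [g1, g2, g3, g4, g5, g6, g7]

/-- the strong form of log-concavity -/
def Good (a : ℕ → ℤ) : Prop :=
  (∀ k, 0 ≤ a k) ∧ ∀ m n : ℕ, m ≤ n → a m * a (n + 2) ≤ a (m + 1) * a (n + 1)

theorem good_cc {s : ℤ} (hs : 0 ≤ s) : ∀ i : ℕ, Good (cc s i)
  | 0 => by
    refine ⟨fun k => ?_, fun m n _ => ?_⟩
    · simp only [cc]
      split_ifs <;> simp
    · simp [cc]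
  | i + 1 => by
    obtain ⟨hp, hG⟩ := good_cc hs i
    have hpos : ∀ k, 0 ≤ cc s (i + 1) k := by
      intro k
      cases k with
      | zero => simp [cc]
      | succ k =>
        simp only [cc]
        have h1 := hp k
        have h2 := hp (k - 1)
        positivity
    refine ⟨hpos, fun m n hmn => ?_⟩
    cases m with
    | zero =>
      have e : cc s (i + 1) 0 = 0 := by simp [cc]
      rw [e, zero_mul]
      exact mul_nonneg (hpos _) (hpos _)
    | succ m =>
      obtain ⟨n, rfl⟩ : ∃ n', n = n' + 1 := ⟨n - 1, by omega⟩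
      have hmn' : m ≤ n := by omega
      have h1 := hG m n hmn'
      have h4 : cc s i m * cc s i (n + 1) ≤ cc s i (m + 1) * cc s i n := by
        rcases Nat.lt_or_ge m n with hlt | hge
        · obtain ⟨q, rfl⟩ : ∃ q, n = q + 1 := ⟨n - 1, by omega⟩
          exact hG m q (by omega)
        · have : m = n := by omega
          subst this
          exact le_of_eq (mul_comm _ _)
      have hmz : (0 : ℤ) ≤ (m : ℤ) := by positivity
      have hmnz : (m : ℤ) ≤ (n : ℤ) := by exact_mod_cast hmn'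
      rcases Nat.eq_zero_or_pos m with h0 | h0
      · subst h0
        have := alg (m := 0) (n := n) (A0 := 0) le_rfl (by positivity) hs (hp 0) (hp 1) (hp n) (hp (n + 1))
          h1 (by simpa using mul_nonneg (hp 0) (hp n)) (by simpa using mul_nonneg (hp 0) (hp (n + 1))) h4
        simp only [cc]
        push_cast
        simpa using this
      · obtain ⟨p, rfl⟩ : ∃ p, m = p + 1 := ⟨m - 1, by omega⟩
        obtain ⟨q, rfl⟩ : ∃ q, n = q + 1 := ⟨n - 1, by omega⟩
        have h2 := hG p q (by omega)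
        have h3 := hG p (q + 1) (by omega)
        have := alg (A0 := cc s i p) hmz hmnz hs (hp (p + 1)) (hp (p + 2)) (hp (q + 1)) (hp (q + 2))
          h1 h2 h3 h4
        simp only [cc]
        push_cast at this ⊢
        exact this

theorem cc_zero_of_lt (s : ℤ) : ∀ i k : ℕ, 2 * i < k → cc s i k = 0
  | 0, k, h => by
    have : k ≠ 0 := by omega
    simp [cc, this]
  | i + 1, 0, h => by omega
  | i + 1, k + 1, h => by
    simp only [cc]
    rw [cc_zero_of_lt s i k (by omega), cc_zero_of_lt s i (k - 1) (by omega)]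
    ring

theorem unique_coeffs {F c c' : ℕ → ℤ} (h : IsBinomialCoeffs F c) (h' : IsBinomialCoeffs F c') :
    ∀ k, c k = c' k := by
  intro k
  induction k using Nat.strong_induction_on with
  | _ k ih =>
    have e1 := h k
    have e2 := h' k
    rw [Finset.sum_range_succ, Nat.choose_self] at e1 e2
    have e3 : ∑ j ∈ range k, c j * (k.choose j : ℤ) = ∑ j ∈ range k, c' j * (k.choose j : ℤ) :=
      Finset.sum_congr rfl fun j hj => by rw [ih j (Finset.mem_range.1 hj)]
    rw [e3] at e1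
    push_cast at e1 e2
    linarith

theorem general {s : ℤ} (hs : 0 ≤ s) (i : ℕ) :
    (∃ c : ℕ → ℤ, IsBinomialCoeffs (EE s i) c ∧ ∀ k, 2 * i < k → c k = 0) ∧
    ∀ c : ℕ → ℤ, IsBinomialCoeffs (EE s i) c → ∀ k : ℕ, 1 ≤ k → c (k - 1) * c (k + 1) ≤ c k ^ 2 := by
  refine ⟨⟨cc s i, main_identity s i, cc_zero_of_lt s i⟩, fun c hc k hk => ?_⟩
  have hu := unique_coeffs hc (main_identity s i)
  obtain ⟨j, rfl⟩ : ∃ j, k = j + 1 := ⟨k - 1, by omega⟩
  rw [Nat.add_sub_cancel, hu, hu, hu, sq]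
  exact (good_cc hs i).2 j j le_rfl

/-- For every `i` the coefficient sequences of `e_i(1, 3, ..., 2g - 1)` and of `e_i(2, 4, ..., 2g)` in the basis
`binom(g, k)` exist, vanish for `k > 2 i`, and are log-concave. -/
theorem result (i : ℕ) :
    ((∃ c : ℕ → ℤ, IsBinomialCoeffs (oddE i) c ∧ ∀ k, 2 * i < k → c k = 0) ∧
      ∀ c : ℕ → ℤ, IsBinomialCoeffs (oddE i) c → ∀ k : ℕ, 1 ≤ k → c (k - 1) * c (k + 1) ≤ c k ^ 2) ∧
    ((∃ c : ℕ → ℤ, IsBinomialCoeffs (evenE i) c ∧ ∀ k, 2 * i < k → c k = 0) ∧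
      ∀ c : ℕ → ℤ, IsBinomialCoeffs (evenE i) c → ∀ k : ℕ, 1 ≤ k → c (k - 1) * c (k + 1) ≤ c k ^ 2) :=
  ⟨general (s := 1) (by norm_num) i, general (s := 2) (by norm_num) i⟩

end Pool.Agent.Results.MP_54d171_ag.OneIndex
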